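import Pool.Agent.W601.RP.Stm2

/-! Project RP, part CH: the continuous characters of the group. -/

set_option autoImplicit false
open scoped Classical
open Filter Topology

namespace Pool.Agent.W881.RP.CH

open Pool.Agent.W601.RP

noncomputable section

/-- the homeomorphism with the circle -/
def E : TT ≃ₜ Circle := AddCircle.homeomorphCircle (one_ne_zero : (1 : ℝ) ≠ 0)

theorem E_apply (y : TT) : E y = AddCircle.toCircle y :=
  AddCircle.homeomorphCircle_apply (one_ne_zero : (1 : ℝ) ≠ 0) y

theorem E_symm_mul (a b : Circle) : E.symm (a * b) = E.symm a + E.symm b := by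
  apply E.injective
  rw [Homeomorph.apply_symm_apply, E_apply, AddCircle.toCircle_add, ← E_apply, ← E_apply,
    Homeomorph.apply_symm_apply, Homeomorph.apply_symm_apply]

theorem E_symm_one : E.symm 1 = 0 := by
  apply E.injective
  rw [Homeomorph.apply_symm_apply, E_apply, AddCircle.toCircle_zero]

theorem exists_min {ι : Type} (I : Finset ι) (d : ι → ℝ) (hd : ∀ i, 0 < d i) :
    ∃ δ : ℝ, 0 < δ ∧ ∀ i ∈ I, δ ≤ d i := by
  induction I using Finset.induction_on with
  | empty => exact ⟨1, one_pos, fun i hi => absurd hi (Finset.notMem_empty i)⟩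
  | insert a s ha ih =>
    obtain ⟨δ, h1, h2⟩ := ih
    refine ⟨min δ (d a), lt_min h1 (hd a), fun i hi => ?_⟩
    rcases Finset.mem_insert.1 hi with h | h
    · rw [h]; exact min_le_right _ _
    · exact (min_le_left _ _).trans (h2 i h)

theorem ch : S_DUAL → S_GS → S_RED → S_CH := by
  intro hdual hGS hred
  obtain ⟨hg1, hg2, -, -, -⟩ := hGS
  obtain ⟨-, hr2, -, -⟩ := hred
  refine ⟨fun χ => ?_, fun h => ?_⟩
  · have hphi : ∀ k k' : ℕ →₀ ℤ, (⟨phi (k + k'), hg2 (k + k')⟩ : ↥GS) =
        ⟨phi k, hg2 k⟩ + ⟨phi k', hg2 k'⟩ := by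
      intro k k'
      apply Subtype.ext
      funext h
      exact hr2 k k' _
    have hphi0 : (⟨phi 0, hg2 0⟩ : ↥GS) = 0 := by
      apply Subtype.ext
      funext h
      show pr 0 (h : ℕ → TT) = 0
      unfold pr
      exact Finsupp.sum_zero_index
    let χ0 : (ℕ →₀ ℤ) →+ TT :=
      { toFun := fun k => E.symm (χ (Multiplicative.ofAdd (⟨phi k, hg2 k⟩ : ↥GS)))
        map_zero' := by
          rw [hphi0, ofAdd_zero, map_one, E_symm_one]
        map_add' := fun k k' => by
          rw [hphi, ofAdd_add, map_mul, E_symm_mul] }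
    have hcont : Continuous (fun g : ↥GS => ‖E.symm (χ (Multiplicative.ofAdd g))‖) := by
      have h1 : Continuous (fun g : ↥GS => χ (Multiplicative.ofAdd g)) :=
        (map_continuous χ).comp continuous_ofAdd
      exact (E.symm.continuous.comp h1).norm
    have hV : {g : ↥GS | ‖E.symm (χ (Multiplicative.ofAdd g))‖ < 1 / 6} ∈ 𝓝 (0 : ↥GS) := by
      have h1 : ‖E.symm (χ (Multiplicative.ofAdd (0 : ↥GS)))‖ < 1 / 6 := by
        rw [ofAdd_zero, map_one, E_symm_one, norm_zero]
        norm_num
      exact hcont.continuousAt.eventually_lt continuousAt_const h1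
    rw [nhds_subtype_eq_comap] at hV
    obtain ⟨U, hU, hUV⟩ := Filter.mem_comap.1 hV
    rw [nhds_pi, Filter.mem_pi] at hU
    obtain ⟨I, hI, t, ht, hIU⟩ := hU
    have hd : ∀ h : ↥H, ∃ d : ℝ, 0 < d ∧ ∀ y : TT, ‖y‖ < d → y ∈ t h := by
      intro h
      have h1 : t h ∈ 𝓝 (0 : TT) := ht h
      obtain ⟨d, hd0, hd1⟩ := Metric.mem_nhds_iff.1 h1
      refine ⟨d, hd0, fun y hy => hd1 ?_⟩
      rw [Metric.mem_ball, dist_zero_right]
      exact hy
    choose d hd0 hd1 using hd
    obtain ⟨δ, hδ, hδ1⟩ := exists_min hI.toFinset d hd0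
    obtain ⟨h, hH, hh⟩ := hdual χ0 (hI.toFinset.image (fun h : ↥H => (h : ℕ → TT))) δ hδ (by
        intro h hh
        obtain ⟨h', -, rfl⟩ := Finset.mem_image.1 hh
        exact h'.2) (by
        intro k hk
        have h1 : (⟨phi k, hg2 k⟩ : ↥GS) ∈
            {g : ↥GS | ‖E.symm (χ (Multiplicative.ofAdd g))‖ < 1 / 6} := by
          apply hUV
          apply hIU
          intro i hi
          apply hd1
          have hi' : i ∈ hI.toFinset := hI.mem_toFinset.2 hi
          exact lt_of_lt_of_le (hk _ (Finset.mem_image_of_mem _ hi')) (hδ1 i hi')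
        exact h1)
    refine ⟨⟨h, hH⟩, fun g => ?_⟩
    obtain ⟨k, -, hk⟩ := hg1 g
    have hgk : g = ⟨phi k, hg2 k⟩ := Subtype.ext hk
    have h1 : E.symm (χ (Multiplicative.ofAdd (⟨phi k, hg2 k⟩ : ↥GS))) = pr k h := hh k
    rw [hgk]
    show χ (Multiplicative.ofAdd (⟨phi k, hg2 k⟩ : ↥GS)) = AddCircle.toCircle (pr k h)
    rw [← h1, ← E_apply, Homeomorph.apply_symm_apply]
  · have hc : Continuous (fun g : Multiplicative ↥GS =>
        AddCircle.toCircle (((Multiplicative.toAdd g : ↥GS) : ↥H → TT) h)) := by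
      have h1 : Continuous (fun g : Multiplicative ↥GS =>
          (((Multiplicative.toAdd g : ↥GS) : ↥H → TT) h)) :=
        (continuous_apply h).comp (continuous_subtype_val.comp continuous_toAdd)
      exact AddCircle.continuous_toCircle.comp h1
    let f : Multiplicative ↥GS →ₜ* Circle :=
      { toFun := fun g => AddCircle.toCircle (((Multiplicative.toAdd g : ↥GS) : ↥H → TT) h)
        map_one' := by
          show AddCircle.toCircle ((0 : ↥H → TT) h) = 1
          rw [Pi.zero_apply, AddCircle.toCircle_zero]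
        map_mul' := fun g g' => by
          show AddCircle.toCircle ((((Multiplicative.toAdd g : ↥GS) : ↥H → TT) +
            ((Multiplicative.toAdd g' : ↥GS) : ↥H → TT)) h) = _
          rw [Pi.add_apply, AddCircle.toCircle_add]
        continuous_toFun := hc }
    exact ⟨f, fun g => rfl⟩

end

end Pool.Agent.W881.RP.CH
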